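import Pool.Agent.TH700.PT.Parts

/-!
# The general lower bound for tree tensor networks: balanced partitions and replacement
-/

set_option autoImplicit false

open Finset

namespace Pool.Agent.TH700.PT

open Pool.Agent.TH700.TN Pool.Agent.TH700.GT

variable {V : Type} [Fintype V] [DecidableEq V]

/-- A family of inputs such that all balanced mixtures of different members are rejected. -/
theorem net_bound {K W : Type} [Field K] [Fintype W] (T : Net K V W) (a : W → K)
    (h1 : ∀ v, T.reads v ≤ 1) {ι : Type} (s : Finset ι) (z : ι → V → Bool) (E : ι → Finset V)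
    {θ t : ℕ} (hθ : 1 ≤ θ) (hE : ∀ i ∈ s, 2 * (E i).card + θ ≤ θ * t)
    (hd : ∀ i ∈ s, T.value a (z i) ≠ 0)
    (ho : ∀ (p : V → Fin t) (b : Fin t → ι), (∀ j, b j ∈ s) → Function.Injective b →
      (∀ j, (E (b j) ∩ univ.filter (fun v => p v = j)).card ≤ 2 * θ) →
      T.value a (mixp p z b) = 0) :
    s.card ≤ t * Fintype.card W ^ 3 * (T.size + 2 * Fintype.card V + 1) ^ (3 * t) := by
  classical
  rcases s.eq_empty_or_nonempty with hs | ⟨i₀, hi₀⟩
  · rw [hs, card_empty]
    exact Nat.zero_le _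
  have hW : Nonempty W := by
    by_contra hW
    rw [not_nonempty_iff] at hW
    refine hd i₀ hi₀ ?_
    unfold Net.value
    simp
  obtain ⟨T', g1, g2, g3⟩ := exists_ext T h1
  have hval : ∀ x, T'.value a x = T.value a x := by
    intro x
    unfold Net.value
    rw [g2]
  have hw1 : 1 ≤ Fintype.card W := Fintype.card_pos
  have hR : ∀ A ∈ cutsv T', Rk (Fintype.card W) (fun x => T.value a x) A := by
    intro A hA
    have h2 := rk_of_cut (cutsv_cut T' a (fun v => (g1 v).le) A hA)
    have h3 : (fun x => T'.value a x) = fun x => T.value a x := funext hval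
    rwa [h3] at h2
  have hp : ∀ i : ι, ∃ P : Fin t → Finset V, i ∈ s →
      (∀ j, P j ∈ cand T' ∧ Rk (Fintype.card W * (Fintype.card W * Fintype.card W))
        (fun x => T.value a x) (P j) ∧ (E i ∩ P j).card ≤ 2 * θ) ∧
      (∀ k j, k ≠ j → Disjoint (P k) (P j)) ∧ ∀ v, ∃ j, v ∈ P j := by
    intro i
    by_cases hi : i ∈ s
    · obtain ⟨P, hP⟩ := exists_parts hw1 (E i) hθ T' g1 hR (hE i hi)
      exact ⟨P, fun _ => hP⟩
    · exact ⟨fun _ => ∅, fun h => absurd h hi⟩
  choose P hP using hp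
  -- pigeonhole over the partitions
  have hmaps : ∀ i ∈ s, P i ∈ Fintype.piFinset (fun _ : Fin t => cand T') := by
    intro i hi
    rw [Fintype.mem_piFinset]
    exact fun j => ((hP i hi).1 j).1
  have hfib : ∀ Q ∈ Fintype.piFinset (fun _ : Fin t => cand T'),
      (s.filter (fun i => P i = Q)).card ≤ t * Fintype.card W ^ 3 := by
    intro Q _
    rcases (s.filter (fun i => P i = Q)).eq_empty_or_nonempty with he | ⟨i₁, hi₁⟩
    · rw [he, card_empty]
      exact Nat.zero_le _
    obtain ⟨hi₁s, hi₁Q⟩ := mem_filter.1 hi₁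
    obtain ⟨q1, q2, q3⟩ := hP i₁ hi₁s
    rw [hi₁Q] at q1 q2 q3
    choose p hp using q3
    have hpQ : ∀ j, univ.filter (fun v => p v = j) = Q j := by
      intro j
      ext v
      rw [mem_filter]
      constructor
      · rintro ⟨-, h⟩
        rw [← h]
        exact hp v
      · intro hv
        refine ⟨mem_univ v, ?_⟩
        by_contra hne
        exact disjoint_left.1 (q2 _ _ hne) (hp v) hv
    refine (replacement (f := fun x => T.value a x)
      (d := Fintype.card W * (Fintype.card W * Fintype.card W)) p (fun j => ?_)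
      (s.filter (fun i => P i = Q)) z (fun i hi => hd i (mem_filter.1 hi).1) ?_).trans ?_
    · rw [hpQ]
      exact (q1 j).2.1
    · intro b hb hinj
      refine ho p b (fun j => (mem_filter.1 (hb j)).1) hinj fun j => ?_
      rw [hpQ]
      have h3 := mem_filter.1 (hb j)
      have h4 := ((hP (b j) h3.1).1 j).2.2
      rwa [h3.2] at h4
    · refine Nat.mul_le_mul_left _ (le_of_eq ?_)
      ring
  have h5 := card_le_mul_card_image_of_maps_to (f := P) (s := s)
    (t := Fintype.piFinset (fun _ : Fin t => cand T')) hmaps (t * Fintype.card W ^ 3) hfib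
  refine h5.trans (Nat.mul_le_mul_left _ ?_)
  rw [Fintype.card_piFinset, prod_const, card_univ, Fintype.card_fin, pow_mul]
  refine Nat.pow_le_pow_left ((card_cand T').trans (Nat.pow_le_pow_left ?_ 3)) t
  omega

/-- The bound for random networks. -/
theorem rand_bound (μ : ℕ) (R : Type) [Fintype R] [Nonempty R]
    (K W : R → Type) [∀ ρ, Field (K ρ)] [∀ ρ, Fintype (W ρ)]
    (T : ∀ ρ, Net (K ρ) V (W ρ)) (a : ∀ ρ, W ρ → K ρ) (h1 : ∀ ρ v, (T ρ).reads v ≤ 1)
    {ι : Type} (s : Finset ι) (z : ι → V → Bool) (E : ι → Finset V)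
    {θ t : ℕ} (hθ : 1 ≤ θ) (hE : ∀ i ∈ s, 2 * (E i).card + θ ≤ θ * t)
    (hc : ∀ i ∈ s, Nat.card R ≤ 2 ^ μ * Nat.card {ρ // (T ρ).value (a ρ) (z i) ≠ 0})
    (ho : ∀ (ρ : R) (p : V → Fin t) (b : Fin t → ι), (∀ j, b j ∈ s) → Function.Injective b →
      (∀ j, (E (b j) ∩ univ.filter (fun v => p v = j)).card ≤ 2 * θ) →
      (T ρ).value (a ρ) (mixp p z b) = 0) :
    ∃ ρ, s.card ≤ 2 ^ μ * (t * Fintype.card (W ρ) ^ 3 *
      ((T ρ).size + 2 * Fintype.card V + 1) ^ (3 * t)) := by
  classical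
  by_contra hcon
  push Not at hcon
  have h2 : ∀ ρ, 2 ^ μ * (s.filter (fun i => (T ρ).value (a ρ) (z i) ≠ 0)).card < s.card := by
    intro ρ
    refine lt_of_le_of_lt (Nat.mul_le_mul_left _ ?_) (hcon ρ)
    exact net_bound (T ρ) (a ρ) (h1 ρ) _ z E hθ (fun i hi => hE i (mem_filter.1 hi).1)
      (fun i hi => (mem_filter.1 hi).2)
      (fun p b hb hinj hbal => ho ρ p b (fun j => (mem_filter.1 (hb j)).1) hinj hbal)
  have h3 : ∑ ρ : R, 2 ^ μ * (s.filter (fun i => (T ρ).value (a ρ) (z i) ≠ 0)).card <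
      Fintype.card R * s.card := by
    calc _ < ∑ _ρ : R, s.card := sum_lt_sum_of_nonempty univ_nonempty (fun ρ _ => h2 ρ)
      _ = _ := by rw [sum_const, card_univ, smul_eq_mul]
  have h4 : Fintype.card R * s.card ≤ ∑ ρ : R, 2 ^ μ *
      (s.filter (fun i => (T ρ).value (a ρ) (z i) ≠ 0)).card := by
    have h5 : ∑ ρ : R, (s.filter (fun i => (T ρ).value (a ρ) (z i) ≠ 0)).card =
        ∑ i ∈ s, (univ.filter (fun ρ : R => (T ρ).value (a ρ) (z i) ≠ 0)).card := by
      simp only [card_filter]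
      exact sum_comm
    rw [← mul_sum, h5, mul_sum, mul_comm, ← smul_eq_mul, ← sum_const]
    refine sum_le_sum (fun i hi => ?_)
    have h6 := hc i hi
    rw [Nat.card_eq_fintype_card, Nat.card_eq_fintype_card, Fintype.card_subtype] at h6
    exact h6
  omega

end Pool.Agent.TH700.PT
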