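import Pool.Agent.TH700.GT.Cut

/-!
# Products are computed by linear networks
-/

set_option autoImplicit false

open Finset

namespace Pool.Agent.TH700.PT

open Pool.Agent.TH700.TN Pool.Agent.TH700.GT

variable {V K W : Type} [CommSemiring K] [Fintype W] [DecidableEq W]

/-- The network for a list of variables. -/
def prn (h : V → Bool → W → K) (c : V) : List V → Net K V W
  | [] => .leaf c (h c)
  | d :: l => .node (prn h d l) (.leaf c (h c))
      (fun i j k => if i = k then (if j = k then 1 else 0) else 0)

omit [Fintype W] in
theorem prn_linear (h : V → Bool → W → K) (c : V) (l : List V) : (prn h c l).Linear := by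
  induction l generalizing c with
  | nil => trivial
  | cons d l ih => exact ⟨ih d, c, h c, rfl⟩

omit [Fintype W] in
theorem prn_size (h : V → Bool → W → K) (c : V) (l : List V) :
    (prn h c l).size = 2 * l.length + 1 := by
  induction l generalizing c with
  | nil => rfl
  | cons d l ih =>
    unfold prn
    rw [Net.size, ih, Net.size, List.length_cons]
    ring

omit [Fintype W] in
open Classical in
theorem prn_reads (h : V → Bool → W → K) (c w : V) (l : List V) :
    (prn h c l).reads w = (c :: l).count w := by
  induction l generalizing c with
  | nil =>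
    unfold prn Net.reads
    rw [List.count_singleton]
    by_cases h : c = w <;> simp [h]
  | cons d l ih =>
    unfold prn
    rw [Net.reads, ih, Net.reads, List.count_cons (l := d :: l)]
    by_cases h : c = w <;> simp [h]

theorem prn_eval (h : V → Bool → W → K) (c : V) (l : List V) (x : V → Bool) (w : W) :
    (prn h c l).eval x w = ((c :: l).map (fun v => h v (x v) w)).prod := by
  induction l generalizing c with
  | nil =>
    unfold prn Net.eval
    simp
  | cons d l ih =>
    have h3 : (prn h c (d :: l)).eval x w = (prn h d l).eval x w * h c (x c) w := by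
      show ∑ i, ∑ j, (if i = w then (if j = w then (1 : K) else 0) else 0) *
        ((prn h d l).eval x i * h c (x c) j) = _
      have h4 : ∀ i j : W, (if i = w then (if j = w then (1 : K) else 0) else 0) *
        ((prn h d l).eval x i * h c (x c) j) =
          if i = w then (if j = w then (prn h d l).eval x i * h c (x c) j else 0) else 0 := by
        intro i j
        split_ifs <;> simp
      simp only [h4]
      simp
    rw [h3, ih, List.map_cons (a := c), List.prod_cons, mul_comm]

/-- The products. -/
theorem exists_product [Fintype V] [Nonempty V] (h : V → Bool → W → K) :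
    ∃ T : Net K V W, T.Linear ∧ (∀ v, T.reads v = 1) ∧ T.size = 2 * Fintype.card V - 1 ∧
      ∀ x w, T.eval x w = ∏ v, h v (x v) w := by
  classical
  obtain ⟨L, hL⟩ : ∃ L, L = (univ : Finset V).toList := ⟨_, rfl⟩
  have hnd : L.Nodup := by rw [hL]; exact nodup_toList _
  have hmem : ∀ v, v ∈ L := by intro v; rw [hL]; simp
  have hlen : L.length = Fintype.card V := by
    rw [hL, length_toList, card_univ]
  have hprod : ∀ f : V → K, (L.map f).prod = ∏ v, f v := by
    intro f
    rw [hL]
    exact prod_map_toList _ _
  obtain ⟨v₀⟩ := ‹Nonempty V›
  obtain ⟨c, l, rfl⟩ : ∃ v l, L = v :: l := by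
    cases L with
    | nil => exact absurd (hmem v₀) (by simp)
    | cons v l => exact ⟨v, l, rfl⟩
  refine ⟨prn h c l, prn_linear h c l, fun w => ?_, ?_, fun x w => ?_⟩
  · rw [prn_reads]
    exact List.count_eq_one_of_mem hnd (hmem w)
  · rw [prn_size]
    rw [List.length_cons] at hlen
    omega
  · rw [prn_eval, hprod]

end Pool.Agent.TH700.PT
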