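import Mathlib.Data.Sym.Sym2

/-!
# Cliques of graphs given by their bits
-/

set_option autoImplicit false

namespace Pool.Agent.TH700.PT

/-- `Q` is a clique of the graph `x` with the vertices `Fin n`; the edge between `u` and `v` is there if
the bit `x s(u, v)` is true. The bits at the loops do not matter. -/
def Clique {n : ℕ} (x : Sym2 (Fin n) → Bool) (Q : Finset (Fin n)) : Prop :=
  ∀ u ∈ Q, ∀ v ∈ Q, u ≠ v → x s(u, v) = true

end Pool.Agent.TH700.PT
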