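import Pool.Agent.TH700.PT.Bound
import Pool.Agent.TH700.PT.Count
import Pool.Agent.TH700.PT.Defs
import Mathlib.Data.Finset.Sym
import Mathlib.Data.Sym.Card

/-!
# Gap clique
-/

set_option autoImplicit false

open Finset

namespace Pool.Agent.TH700.PT

open Pool.Agent.TH700.TN Pool.Agent.TH700.GT

variable {n s q t : ℕ}

/-- The complete graph on the vertices `A`. -/
def kg (A : Finset (Fin n)) : Sym2 (Fin n) → Bool := fun e => decide (e ∈ A.sym2)

/-- The cliques of the mixtures are small. -/
theorem clique_mix {A : Fin t → Finset (Fin n)} {m θ r : ℕ}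
    (hA : ∀ i j, i ≠ j → (A i ∩ A j).card ≤ m) (p : Sym2 (Fin n) → Fin t)
    (hb : ∀ j, ((A j).sym2 ∩ univ.filter (fun e => p e = j)).card ≤ 2 * θ)
    (hr : 2 * θ < r.choose 2) (hr2 : 2 ≤ r) {Q : Finset (Fin n)}
    (hQ : Clique (fun e => kg (A (p e)) e) Q) : Q.card < t * t * m + r := by
  classical
  by_contra hcon
  rw [not_lt] at hcon
  obtain ⟨D, hD⟩ : ∃ D : Finset (Fin n), D = (univ : Finset (Fin t)).biUnion (fun i =>
      (univ.filter (fun j => j ≠ i)).biUnion (fun j => A i ∩ A j)) := ⟨_, rfl⟩
  have hDc : D.card ≤ t * t * m := by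
    rw [hD]
    refine card_biUnion_le.trans ?_
    calc ∑ i : Fin t, ((univ.filter (fun j => j ≠ i)).biUnion (fun j => A i ∩ A j)).card ≤
        ∑ _i : Fin t, t * m := by
          refine sum_le_sum fun i _ => card_biUnion_le.trans ?_
          calc ∑ j ∈ univ.filter (fun j => j ≠ i), (A i ∩ A j).card ≤
              ∑ _j ∈ univ.filter (fun j => j ≠ i), m :=
                sum_le_sum fun j hj => hA i j (Ne.symm (mem_filter.1 hj).2)
            _ = (univ.filter (fun j => j ≠ i)).card * m := by rw [sum_const, smul_eq_mul]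
            _ ≤ t * m := by
              refine Nat.mul_le_mul_right _ ?_
              have := card_le_univ (univ.filter (fun j : Fin t => j ≠ i))
              rwa [Fintype.card_fin] at this
      _ = t * t * m := by rw [sum_const, card_univ, Fintype.card_fin, smul_eq_mul, mul_assoc]
  have hsub : r ≤ (Q \ D).card := by
    have := le_card_sdiff D Q
    omega
  have huniq : ∀ u ∈ Q \ D, ∀ i j, u ∈ A i → u ∈ A j → i = j := by
    intro u hu i j hi hj
    by_contra hne
    refine (mem_sdiff.1 hu).2 ?_
    rw [hD, mem_biUnion]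
    refine ⟨i, mem_univ i, ?_⟩
    rw [mem_biUnion]
    exact ⟨j, mem_filter.2 ⟨mem_univ j, fun h => hne h.symm⟩, mem_inter.2 ⟨hi, hj⟩⟩
  have hmem : ∀ u ∈ Q \ D, ∀ v ∈ Q \ D, u ≠ v → u ∈ A (p s(u, v)) ∧ v ∈ A (p s(u, v)) := by
    intro u hu v hv huv
    have h1 := hQ u (mem_sdiff.1 hu).1 v (mem_sdiff.1 hv).1 huv
    have h2 : s(u, v) ∈ (A (p s(u, v))).sym2 := by
      simpa [kg] using h1
    exact mk_mem_sym2_iff.1 h2
  obtain ⟨u₀, hu₀⟩ : (Q \ D).Nonempty := by
    rw [← card_pos]
    omega
  obtain ⟨u₁, hu₁, hne⟩ : ∃ u₁ ∈ Q \ D, u₁ ≠ u₀ := by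
    by_contra h
    push Not at h
    have h1 : Q \ D ⊆ {u₀} := fun x hx => mem_singleton.2 (h x hx)
    have := card_le_card h1
    rw [card_singleton] at this
    omega
  obtain ⟨j₀, hj₀⟩ : ∃ j₀, j₀ = p s(u₀, u₁) := ⟨_, rfl⟩
  have h0 : u₀ ∈ A j₀ := by
    rw [hj₀]
    exact (hmem u₀ hu₀ u₁ hu₁ (Ne.symm hne)).1
  have hall : ∀ v ∈ Q \ D, v ∈ A j₀ := by
    intro v hv
    by_cases h : v = u₀
    · rw [h]; exact h0
    · obtain ⟨h1, h2⟩ := hmem u₀ hu₀ v hv (Ne.symm h)
      rw [huniq u₀ hu₀ j₀ _ h0 h1]
      exact h2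
  have hsub2 : ((Q \ D).offDiag.image Sym2.mk.uncurry) ⊆
      (A j₀).sym2 ∩ univ.filter (fun e => p e = j₀) := by
    intro e he
    rw [mem_image] at he
    obtain ⟨⟨u, v⟩, huv, rfl⟩ := he
    rw [mem_offDiag] at huv
    obtain ⟨hu, hv, huv⟩ := huv
    rw [mem_inter, mem_filter]
    refine ⟨mk_mem_sym2_iff.2 ⟨hall u hu, hall v hv⟩, mem_univ _, ?_⟩
    exact huniq u hu _ _ (hmem u hu v hv huv).1 (hall u hu)
  have h3 := card_le_card hsub2
  rw [Sym2.card_image_offDiag] at h3
  have h4 := Nat.choose_le_choose 2 hsub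
  have h5 := hb j₀
  omega

/-- The positions at which two words agree. -/
def agr (u v : Fin s → Fin q) : Finset (Fin s) := univ.filter (fun i => u i = v i)

/-- The number of words close to a given word. -/
theorem ball_le (u : Fin s → Fin q) (m : ℕ) :
    (univ.filter (fun v : Fin s → Fin q => m < (agr u v).card)).card ≤
      2 ^ s * q ^ (s - (m + 1)) := by
  classical
  have h1 : univ.filter (fun v : Fin s → Fin q => m < (agr u v).card) ⊆
      (powersetCard (m + 1) (univ : Finset (Fin s))).biUnion (fun I =>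
        Fintype.piFinset (fun i => if i ∈ I then {u i} else univ)) := by
    intro v hv
    obtain ⟨I, hI, hIc⟩ := exists_subset_card_eq (show m + 1 ≤ (agr u v).card from
      (mem_filter.1 hv).2)
    rw [mem_biUnion]
    refine ⟨I, mem_powersetCard.2 ⟨subset_univ _, hIc⟩, ?_⟩
    rw [Fintype.mem_piFinset]
    intro i
    by_cases hi : i ∈ I
    · rw [if_pos hi, mem_singleton]
      exact (mem_filter.1 (hI hi)).2.symm
    · rw [if_neg hi]
      exact mem_univ _
  refine (card_le_card h1).trans (card_biUnion_le.trans ?_)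
  calc ∑ I ∈ powersetCard (m + 1) (univ : Finset (Fin s)),
      (Fintype.piFinset (fun i => if i ∈ I then {u i} else univ)).card ≤
      ∑ _I ∈ powersetCard (m + 1) (univ : Finset (Fin s)), q ^ (s - (m + 1)) := by
        refine sum_le_sum fun I hI => le_of_eq ?_
        rw [Fintype.card_piFinset]
        have h2 : ∀ i, (if i ∈ I then ({u i} : Finset (Fin q)) else univ).card =
            if i ∈ I then 1 else q := by
          intro i
          split_ifs <;> simp
        rw [prod_congr rfl fun i _ => h2 i, prod_ite, prod_const_one, one_mul, prod_const]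
        congr 1
        have h3 : univ.filter (fun i => i ∉ I) = Iᶜ := by
          ext i
          simp
        rw [h3, card_compl, Fintype.card_fin, (mem_powersetCard.1 hI).2]
    _ = (powersetCard (m + 1) (univ : Finset (Fin s))).card * q ^ (s - (m + 1)) := by
        rw [sum_const, smul_eq_mul]
    _ ≤ 2 ^ s * q ^ (s - (m + 1)) := by
        refine Nat.mul_le_mul_right _ ?_
        rw [card_powersetCard, card_univ, Fintype.card_fin]
        exact Nat.choose_le_two_pow s (m + 1)

/-- Many words, of which every two agree rarely. -/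
theorem exists_words {m : ℕ} (hm : m + 1 ≤ s) : ∃ C : Finset (Fin s → Fin q),
    (∀ u ∈ C, ∀ v ∈ C, u ≠ v → (agr u v).card ≤ m) ∧
      q ^ s ≤ C.card * (2 ^ s * q ^ (s - (m + 1))) := by
  classical
  obtain ⟨F, hF⟩ : ∃ F : Finset (Finset (Fin s → Fin q)), F = univ.filter (fun C =>
    ∀ u ∈ C, ∀ v ∈ C, u ≠ v → (agr u v).card ≤ m) := ⟨_, rfl⟩
  have hne : F.Nonempty := ⟨∅, by rw [hF]; simp⟩
  obtain ⟨C, hC, hmax⟩ := exists_max_image F Finset.card hne
  rw [hF, mem_filter] at hC
  refine ⟨C, hC.2, ?_⟩
  have hsymm : ∀ u v : Fin s → Fin q, agr u v = agr v u := by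
    intro u v
    unfold agr
    exact filter_congr fun i _ => eq_comm
  have hcov : (univ : Finset (Fin s → Fin q)) ⊆ C.biUnion (fun u =>
      univ.filter (fun v : Fin s → Fin q => m < (agr u v).card)) := by
    intro y _
    rw [mem_biUnion]
    by_contra hcon
    push Not at hcon
    have hfar : ∀ a ∈ C, (agr a y).card ≤ m := by
      intro a ha
      have := hcon a ha
      rw [mem_filter, not_and] at this
      exact not_lt.1 (this (mem_univ _))
    have hyC : y ∉ C := by
      intro hy
      have h1 := hfar y hy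
      have h2 : agr y y = univ := by
        unfold agr
        simp
      rw [h2, card_univ, Fintype.card_fin] at h1
      omega
    have h1 : insert y C ∈ F := by
      rw [hF, mem_filter]
      refine ⟨mem_univ _, ?_⟩
      intro a ha b hb hab
      rw [mem_insert] at ha hb
      rcases ha with rfl | ha
      · rcases hb with rfl | hb
        · exact absurd rfl hab
        · rw [hsymm]
          exact hfar b hb
      · rcases hb with rfl | hb
        · exact hfar a ha
        · exact hC.2 a ha b hb hab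
    have h2 := hmax _ h1
    rw [card_insert_of_notMem hyC] at h2
    omega
  have h1 := (card_le_card hcov).trans card_biUnion_le
  rw [card_univ, Fintype.card_fun, Fintype.card_fin, Fintype.card_fin] at h1
  refine h1.trans ?_
  calc ∑ u ∈ C, (univ.filter (fun v : Fin s → Fin q => m < (agr u v).card)).card ≤
      ∑ _u ∈ C, 2 ^ s * q ^ (s - (m + 1)) := sum_le_sum fun u _ => ball_le u m
    _ = _ := by rw [sum_const, smul_eq_mul]

/-- The vertices of a word. -/
def wv (φ : Fin s × Fin q → Fin n) (u : Fin s → Fin q) : Finset (Fin n) :=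
  univ.image (fun i => φ (i, u i))

theorem card_wv {φ : Fin s × Fin q → Fin n} (hφ : Function.Injective φ) (u : Fin s → Fin q) :
    (wv φ u).card = s := by
  unfold wv
  rw [card_image_of_injective, card_univ, Fintype.card_fin]
  intro i j hij
  exact congrArg Prod.fst (hφ hij)

theorem card_wv_inter {φ : Fin s × Fin q → Fin n} (hφ : Function.Injective φ)
    (u v : Fin s → Fin q) : (wv φ u ∩ wv φ v).card ≤ (agr u v).card := by
  classical
  have h1 : wv φ u ∩ wv φ v ⊆ (agr u v).image (fun i => φ (i, u i)) := by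
    intro x hx
    rw [mem_inter] at hx
    unfold wv at hx
    rw [mem_image, mem_image] at hx
    obtain ⟨⟨i, -, rfl⟩, ⟨j, -, hj⟩⟩ := hx
    have h2 := hφ hj
    have h3 : j = i := congrArg Prod.fst h2
    have h4 : v j = u i := congrArg Prod.snd h2
    subst h3
    rw [mem_image]
    exact ⟨j, mem_filter.2 ⟨mem_univ _, h4.symm⟩, rfl⟩
  exact (card_le_card h1).trans card_image_le

end Pool.Agent.TH700.PT
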