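import Pool.Agent.TH700.PT.Clique

/-!
# Tensor networks for gap clique
-/

set_option autoImplicit false

open Finset

namespace Pool.Agent.TH700.PT

open Pool.Agent.TH700.TN Pool.Agent.TH700.GT

/-- The arithmetic of the parameters. -/
theorem arith_parts {g τ t s m : ℕ} (hg : 1 ≤ g) (hτ : τ = 257 * g ^ 2) (ht : t = 2 * τ)
    (hm : 1 ≤ m) (hs : s ≤ 16 * g * τ ^ 2 * m) (hs1 : 1 ≤ s) :
    (s + 1) * s + τ ^ 4 * m ^ 2 ≤ τ ^ 4 * m ^ 2 * t := by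
  have h1 : s * s ≤ (16 * g * τ ^ 2 * m) * (16 * g * τ ^ 2 * m) := Nat.mul_le_mul hs hs
  have h2 : (s + 1) * s ≤ 2 * (s * s) := by nlinarith
  have h3 : (s + 1) * s ≤ τ ^ 4 * m ^ 2 * (512 * g ^ 2) := by
    calc (s + 1) * s ≤ 2 * ((16 * g * τ ^ 2 * m) * (16 * g * τ ^ 2 * m)) :=
          h2.trans (Nat.mul_le_mul_left _ h1)
      _ = _ := by ring
  have h4 : 512 * g ^ 2 + 1 ≤ t := by
    have : 1 ≤ g ^ 2 := Nat.one_le_pow _ _ hg
    omega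
  calc (s + 1) * s + τ ^ 4 * m ^ 2 ≤ τ ^ 4 * m ^ 2 * (512 * g ^ 2) + τ ^ 4 * m ^ 2 :=
        Nat.add_le_add_right h3 _
    _ = τ ^ 4 * m ^ 2 * (512 * g ^ 2 + 1) := by ring
    _ ≤ _ := Nat.mul_le_mul_left _ h4

theorem arith_choose {τ m r : ℕ} (hτ : 1 ≤ τ) (hm : 1 ≤ m) (hr : r = 4 * τ ^ 2 * m) :
    2 * (τ ^ 4 * m ^ 2) < r.choose 2 := by
  have h1 : 1 ≤ τ ^ 2 * m := Nat.mul_pos (pow_pos hτ 2) hm
  obtain ⟨y, hy⟩ : ∃ y, y = τ ^ 2 * m := ⟨_, rfl⟩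
  have h2 : τ ^ 4 * m ^ 2 = y * y := by rw [hy]; ring
  have h3 : r = 4 * y := by rw [hr, hy]; ring
  rw [h2, h3, Nat.choose_two_right, Nat.lt_iff_add_one_le,
    Nat.le_div_iff_mul_le (by norm_num)]
  rw [← hy] at h1
  obtain ⟨z, rfl⟩ := Nat.exists_eq_add_of_le h1
  have h4 : 4 * (1 + z) - 1 = 3 + 4 * z := by omega
  rw [h4]
  nlinarith

/-- The final arithmetic. -/
theorem arith_final {t h s n q m X : ℕ} (hsn : s ≤ n) (hq : q = n / s) (hs : 1 ≤ s)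
    (hsm : s ≤ h * m) (hst : 12 * t * h ≤ s) (ht : 1 ≤ t) (hh : 1 ≤ h) (hX : 1 ≤ X)
    (hmain : q ^ (m + 1) ≤ 2 ^ s * (t * (4 * n ^ 2) ^ (3 * t) * X ^ (3 * t))) :
    n ^ s ≤ ((8 * 2 ^ h * t) * s) ^ (2 * s) * X ^ (6 * t * h) := by
  have hq1 : 1 ≤ q := by
    rw [hq]
    exact Nat.div_pos hsn hs
  have hn1 : 1 ≤ n := hs.trans hsn
  have hnq : n ≤ 2 * s * q := by
    have h1 : n < s * (q + 1) := by
      rw [hq]
      exact Nat.lt_mul_div_succ n hs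
    nlinarith
  have h1 : q ^ s ≤ (2 ^ s * (t * (4 * n ^ 2) ^ (3 * t) * X ^ (3 * t))) ^ h := by
    calc q ^ s ≤ q ^ (h * m) := Nat.pow_le_pow_right hq1 hsm
      _ = (q ^ m) ^ h := by rw [mul_comm, pow_mul]
      _ ≤ (q ^ (m + 1)) ^ h := Nat.pow_le_pow_left (Nat.pow_le_pow_right hq1 (Nat.le_succ m)) h
      _ ≤ _ := Nat.pow_le_pow_left hmain h
  have h2 : n ^ s ≤ (2 * s) ^ s * (2 ^ s * (t * (4 * n ^ 2) ^ (3 * t) * X ^ (3 * t))) ^ h := by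
    calc n ^ s ≤ (2 * s * q) ^ s := Nat.pow_le_pow_left hnq s
      _ = (2 * s) ^ s * q ^ s := mul_pow _ _ _
      _ ≤ _ := Nat.mul_le_mul_left _ h1
  have h3 : (2 * s) ^ s * (2 ^ s * (t * (4 * n ^ 2) ^ (3 * t) * X ^ (3 * t))) ^ h =
      ((2 * s) ^ s * (2 ^ h) ^ s * t ^ h * 4 ^ (3 * t * h)) * n ^ (6 * t * h) *
        X ^ (3 * t * h) := by
    ring
  have h4 : (2 * s) ^ s * (2 ^ h) ^ s * t ^ h * 4 ^ (3 * t * h) ≤
      ((8 * 2 ^ h * t) * s) ^ s := by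
    have e1 : t ^ h ≤ t ^ s := by
      refine Nat.pow_le_pow_right ht ?_
      nlinarith [Nat.mul_le_mul_right h ht]
    have e2 : 4 ^ (3 * t * h) ≤ 4 ^ s := by
      refine Nat.pow_le_pow_right (by norm_num) ?_
      nlinarith [Nat.mul_le_mul_right h ht]
    calc (2 * s) ^ s * (2 ^ h) ^ s * t ^ h * 4 ^ (3 * t * h) ≤
        (2 * s) ^ s * (2 ^ h) ^ s * t ^ s * 4 ^ s :=
          Nat.mul_le_mul (Nat.mul_le_mul_left _ e1) e2
      _ = (2 * s * 2 ^ h * t * 4) ^ s := by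
          rw [mul_pow (2 * s * 2 ^ h * t) 4, mul_pow (2 * s * 2 ^ h) t, mul_pow (2 * s) (2 ^ h)]
      _ = _ := by
          congr 1
          ring
  obtain ⟨F, hF⟩ : ∃ F, F = ((8 * 2 ^ h * t) * s) ^ s := ⟨_, rfl⟩
  rw [h3] at h2
  have h5 : n ^ s ≤ F * n ^ (6 * t * h) * X ^ (3 * t * h) := by
    refine h2.trans ?_
    rw [hF]
    exact Nat.mul_le_mul_right _ (Nat.mul_le_mul_right _ h4)
  have h6 : n ^ s * n ^ s ≤ F ^ 2 * X ^ (6 * t * h) * n ^ s := by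
    calc n ^ s * n ^ s ≤ (F * n ^ (6 * t * h) * X ^ (3 * t * h)) *
          (F * n ^ (6 * t * h) * X ^ (3 * t * h)) := Nat.mul_le_mul h5 h5
      _ = F ^ 2 * X ^ (6 * t * h) * n ^ (12 * t * h) := by ring
      _ ≤ _ := Nat.mul_le_mul_left _ (Nat.pow_le_pow_right hn1 hst)
  have h7 := Nat.le_of_mul_le_mul_right h6 (pow_pos hn1 s)
  refine h7.trans (le_of_eq ?_)
  rw [hF, ← pow_mul, mul_comm s 2]

theorem main {g : ℕ} (hg : 1 ≤ g) : ∃ D : ℕ, ∀ s n : ℕ, D ≤ s → s ≤ n →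
    ∀ (μ : ℕ) (R : Type) [Fintype R] [Nonempty R] (K W : R → Type) [∀ ρ, Field (K ρ)]
      [∀ ρ, Fintype (W ρ)] (T : ∀ ρ, Net (K ρ) (Sym2 (Fin n)) (W ρ)) (a : ∀ ρ, W ρ → K ρ),
      (∀ ρ e, (T ρ).reads e ≤ 1) →
      (∀ ρ x, (∀ Q, Clique x Q → g * Q.card < s) → (T ρ).value (a ρ) x = 0) →
      (∀ x, (∃ Q, Clique x Q ∧ Q.card = s) →
        Nat.card R ≤ 2 ^ μ * Nat.card {ρ // (T ρ).value (a ρ) x ≠ 0}) →
      ∃ ρ, n ^ s ≤ (D * s) ^ (2 * s) * (2 ^ μ * ((T ρ).size * Fintype.card (W ρ))) ^ D := by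
  classical
  obtain ⟨τ, hτ⟩ : ∃ τ, τ = 257 * g ^ 2 := ⟨_, rfl⟩
  obtain ⟨t, ht⟩ : ∃ t, t = 2 * τ := ⟨_, rfl⟩
  obtain ⟨h, hh⟩ : ∃ h, h = 4 * g * t ^ 2 := ⟨_, rfl⟩
  have hg2 : 1 ≤ g ^ 2 := Nat.one_le_pow _ _ hg
  have hτ1 : 1 ≤ τ := by omega
  have ht1 : 1 ≤ t := by omega
  have hh1 : 1 ≤ h := by
    rw [hh]
    exact Nat.mul_pos (by omega) (pow_pos ht1 2)
  refine ⟨8 * 2 ^ h * t + 12 * t * h, fun s n hDs hsn μ R _ _ K W _ _ T a h1 hno hyes => ?_⟩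
  have hst : 12 * t * h ≤ s := (Nat.le_add_left _ _).trans hDs
  have hs1 : 1 ≤ s := le_trans (Nat.mul_pos (Nat.mul_pos (by norm_num) ht1) hh1) hst
  -- the parameter `m`
  obtain ⟨b, hb⟩ : ∃ b, b = 2 * g * t ^ 2 := ⟨_, rfl⟩
  have hb1 : 1 ≤ b := by
    rw [hb]
    exact Nat.mul_pos (by omega) (pow_pos ht1 2)
  have hhb : h = 2 * b := by rw [hh, hb]; ring
  have hbs : b ≤ s := by
    refine le_trans ?_ hst
    rw [hhb]
    nlinarith
  obtain ⟨m, hm⟩ : ∃ m, m = s / b := ⟨_, rfl⟩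
  have hm1 : 1 ≤ m := by
    rw [hm]
    exact Nat.div_pos hbs hb1
  have hbm : b * m ≤ s := by
    rw [hm]
    exact Nat.mul_div_le s b
  have hsm : s ≤ h * m := by
    have h2 : s < b * (m + 1) := by
      rw [hm]
      exact Nat.lt_mul_div_succ s hb1
    rw [hhb]
    nlinarith
  have hsm' : s ≤ 16 * g * τ ^ 2 * m := by
    refine hsm.trans (le_of_eq ?_)
    rw [hh, ht]
    ring
  have hms : m + 1 ≤ s := by
    have : 2 * m ≤ b * m := Nat.mul_le_mul_right _ (by rw [hb]; nlinarith [(Nat.pow_pos ht1 : 0 < t ^ 2)])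
    omega
  obtain ⟨q, hq⟩ : ∃ q, q = n / s := ⟨_, rfl⟩
  have hq1 : 1 ≤ q := by
    rw [hq]
    exact Nat.div_pos hsn hs1
  have hqn : s * q ≤ n := by
    rw [hq]
    exact Nat.mul_div_le n s
  have hn1 : 1 ≤ n := hs1.trans hsn
  obtain ⟨C, hC1, hC2⟩ := exists_words (s := s) (q := q) hms
  obtain ⟨φ, hφ⟩ : ∃ φ : Fin s × Fin q → Fin n, Function.Injective φ :=
    ⟨fun p => Fin.castLE hqn (finProdFinEquiv p), (Fin.castLE_injective hqn).comp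
      finProdFinEquiv.injective⟩
  obtain ⟨r, hr⟩ : ∃ r, r = 4 * τ ^ 2 * m := ⟨_, rfl⟩
  have hr2 : 2 ≤ r := by
    rw [hr]
    have : 1 ≤ τ ^ 2 * m := Nat.mul_pos (pow_pos hτ1 2) hm1
    nlinarith
  -- the number of edges
  have hEdges : ∀ u ∈ C, 2 * ((wv φ u).sym2).card + τ ^ 4 * m ^ 2 ≤ τ ^ 4 * m ^ 2 * t := by
    intro u _
    rw [card_sym2, card_wv hφ]
    have e1 : 2 * (s + 1).choose 2 = (s + 1) * s := by
      rw [Nat.choose_two_right, Nat.add_sub_cancel, Nat.mul_div_cancel']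
      rw [mul_comm]
      exact (Nat.even_mul_succ_self s).two_dvd
    rw [e1]
    exact arith_parts hg hτ ht hm1 hsm' hs1
  -- the yes instances
  have hYes : ∀ u ∈ C, Nat.card R ≤
      2 ^ μ * Nat.card {ρ // (T ρ).value (a ρ) (kg (wv φ u)) ≠ 0} := by
    intro u _
    refine hyes _ ⟨wv φ u, fun x hx y hy _ => ?_, card_wv hφ u⟩
    unfold kg
    rw [decide_eq_true_eq]
    exact mk_mem_sym2_iff.2 ⟨hx, hy⟩
  -- the mixtures
  have hMix : ∀ (ρ : R) (p : Sym2 (Fin n) → Fin t) (b : Fin t → (Fin s → Fin q)),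
      (∀ j, b j ∈ C) → Function.Injective b →
      (∀ j, ((wv φ (b j)).sym2 ∩ univ.filter (fun v => p v = j)).card ≤ 2 * (τ ^ 4 * m ^ 2)) →
      (T ρ).value (a ρ) (mixp p (fun u => kg (wv φ u)) b) = 0 := by
    intro ρ p c hc hinj hbal
    refine hno ρ _ fun Q hQ => ?_
    have h2 := clique_mix (A := fun j => wv φ (c j)) (m := m) (θ := τ ^ 4 * m ^ 2) (r := r)
      (fun i j hij => (card_wv_inter hφ _ _).trans (hC1 _ (hc i) _ (hc j)
        (fun h => hij (hinj h)))) p hbal (arith_choose hτ1 hm1 hr) hr2 hQ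
    have h3 : t * t * m + r = 2 * (t ^ 2 * m) := by
      rw [hr, ht]
      ring
    rw [h3] at h2
    have h4 : g * (2 * (t ^ 2 * m)) ≤ s := by
      refine le_trans (le_of_eq ?_) hbm
      rw [hb]
      ring
    exact lt_of_lt_of_le (Nat.mul_lt_mul_of_pos_left h2 hg) h4
  obtain ⟨ρ, hρ⟩ := rand_bound μ R K W T a h1 C (fun u => kg (wv φ u))
    (fun u => (wv φ u).sym2) (θ := τ ^ 4 * m ^ 2) (t := t)
    (Nat.mul_pos (pow_pos hτ1 4) (pow_pos hm1 2)) hEdges hYes hMix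
  refine ⟨ρ, ?_⟩
  have hC3 : q ^ (m + 1) ≤ C.card * 2 ^ s := by
    refine Nat.le_of_mul_le_mul_right (c := q ^ (s - (m + 1))) ?_ (Nat.pow_pos hq1)
    rw [← pow_add, show m + 1 + (s - (m + 1)) = s by omega]
    refine hC2.trans (le_of_eq ?_)
    ring
  have hCpos : 1 ≤ C.card := by
    rcases Nat.eq_zero_or_pos C.card with h0 | h0
    · rw [h0, zero_mul] at hC3
      have : 0 < q ^ (m + 1) := Nat.pow_pos hq1
      omega
    · exact h0
  obtain ⟨w, hw⟩ : ∃ w, w = Fintype.card (W ρ) := ⟨_, rfl⟩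
  obtain ⟨z, hz⟩ : ∃ z, z = (T ρ).size := ⟨_, rfl⟩
  rw [← hw, ← hz] at hρ ⊢
  have hw1 : 1 ≤ w := by
    rcases Nat.eq_zero_or_pos w with h0 | h0
    · rw [h0] at hρ
      simp at hρ
      rw [hρ] at hCpos
      simp at hCpos
    · exact h0
  have hz1 : 1 ≤ z := by
    rw [hz]
    cases T ρ with
    | leaf v f => exact le_rfl
    | node l t c => unfold Net.size; omega
  obtain ⟨X, hX⟩ : ∃ X, X = 2 ^ μ * (z * w) := ⟨_, rfl⟩
  have hX1 : 1 ≤ X := by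
    rw [hX]
    exact Nat.mul_pos (pow_pos (by norm_num) μ) (Nat.mul_pos hz1 hw1)
  rw [← hX]
  have hV : 2 * Fintype.card (Sym2 (Fin n)) = n * (n + 1) := by
    rw [Sym2.card, Fintype.card_fin, Nat.choose_two_right, Nat.add_sub_cancel,
      Nat.mul_div_cancel' ]
    · ring
    · rw [mul_comm]
      exact (Nat.even_mul_succ_self n).two_dvd
  have hN : z + 2 * Fintype.card (Sym2 (Fin n)) + 1 ≤ z * (4 * n ^ 2) := by
    rw [hV]
    have e1 : n * (n + 1) + 2 ≤ 4 * n ^ 2 := by nlinarith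
    nlinarith
  have hmain : q ^ (m + 1) ≤ 2 ^ s * (t * (4 * n ^ 2) ^ (3 * t) * X ^ (3 * t)) := by
    have e1 : 2 ^ μ * (t * w ^ 3 * (z + 2 * Fintype.card (Sym2 (Fin n)) + 1) ^ (3 * t)) ≤
        t * (4 * n ^ 2) ^ (3 * t) * X ^ (3 * t) := by
      have e2 : 2 ^ μ ≤ (2 ^ μ) ^ (3 * t) := by
        conv_lhs => rw [← pow_one (2 ^ μ)]
        exact Nat.pow_le_pow_right (pow_pos (by norm_num) μ) (by omega)
      have e3 : w ^ 3 ≤ w ^ (3 * t) := Nat.pow_le_pow_right hw1 (by omega)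
      calc 2 ^ μ * (t * w ^ 3 * (z + 2 * Fintype.card (Sym2 (Fin n)) + 1) ^ (3 * t)) ≤
          (2 ^ μ) ^ (3 * t) * (t * w ^ (3 * t) * (z * (4 * n ^ 2)) ^ (3 * t)) :=
            Nat.mul_le_mul e2 (Nat.mul_le_mul (Nat.mul_le_mul_left _ e3)
              (Nat.pow_le_pow_left hN _))
        _ = _ := by
            rw [hX]
            ring
    calc q ^ (m + 1) ≤ C.card * 2 ^ s := hC3
      _ ≤ (t * (4 * n ^ 2) ^ (3 * t) * X ^ (3 * t)) * 2 ^ s :=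
          Nat.mul_le_mul_right _ (hρ.trans e1)
      _ = _ := mul_comm _ _
  have hfin := arith_final hsn hq hs1 hsm hst ht1 hh1 hX1 hmain
  refine hfin.trans (Nat.mul_le_mul ?_ ?_)
  · refine Nat.pow_le_pow_left (Nat.mul_le_mul_right _ (Nat.le_add_right _ _)) _
  · refine Nat.pow_le_pow_right hX1 (le_trans ?_ (Nat.le_add_left _ _))
    nlinarith [Nat.zero_le (t * h)]

/-- Conversely cliques are counted by linear networks. -/
theorem upper (s : ℕ) {n : ℕ} (hn : 1 ≤ n) :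
    ∃ (T : Net ℚ (Sym2 (Fin n)) {Q : Finset (Fin n) // Q.card = s})
      (a : {Q : Finset (Fin n) // Q.card = s} → ℚ),
      T.Linear ∧ (∀ e, T.reads e = 1) ∧ T.size = n * (n + 1) - 1 ∧
        ∀ x, T.value a x ≠ 0 ↔ ∃ Q, Clique x Q ∧ Q.card = s := by
  classical
  have : Nonempty (Fin n) := ⟨⟨0, hn⟩⟩
  have : Nonempty (Sym2 (Fin n)) := ⟨s(⟨0, hn⟩, ⟨0, hn⟩)⟩
  obtain ⟨T, h1, h2, h3, h4⟩ := exists_product (K := ℚ)
    (fun (e : Sym2 (Fin n)) (b : Bool) (Q : {Q : Finset (Fin n) // Q.card = s}) =>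
      if e ∈ Q.1.sym2 ∧ ¬ e.IsDiag ∧ b = false then (0 : ℚ) else 1)
  refine ⟨T, fun _ => 1, h1, h2, ?_, fun x => ?_⟩
  · rw [h3, Sym2.card, Fintype.card_fin, Nat.choose_two_right, Nat.add_sub_cancel,
      Nat.mul_div_cancel']
    · rw [mul_comm]
    · rw [mul_comm]
      exact (Nat.even_mul_succ_self n).two_dvd
  · have h5 : ∀ Q : {Q : Finset (Fin n) // Q.card = s}, 0 ≤ T.eval x Q ∧
        (T.eval x Q ≠ 0 ↔ Clique x Q.1) := by
      intro Q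
      rw [h4]
      refine ⟨prod_nonneg fun e _ => by split_ifs <;> norm_num, ?_⟩
      rw [prod_ne_zero_iff]
      constructor
      · intro h u hu v hv huv
        by_contra hx
        rw [Bool.not_eq_true] at hx
        refine h s(u, v) (mem_univ _) (if_pos ⟨mk_mem_sym2_iff.2 ⟨hu, hv⟩, ?_, hx⟩)
        rw [Sym2.mk_isDiag_iff]
        exact huv
      · intro h e _
        rw [if_neg]
        · exact one_ne_zero
        · rintro ⟨he, hd, hx⟩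
          revert he hd hx
          refine Sym2.ind (fun u v => ?_) e
          intro he hd hx
          rw [mk_mem_sym2_iff] at he
          rw [Sym2.mk_isDiag_iff] at hd
          rw [h u he.1 v he.2 hd] at hx
          exact Bool.noConfusion hx
    unfold Net.value
    rw [Ne, sum_eq_zero_iff_of_nonneg (fun k _ => by
      rw [one_mul]
      exact (h5 k).1)]
    push Not
    constructor
    · rintro ⟨Q, -, hQ⟩
      rw [one_mul] at hQ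
      exact ⟨Q.1, (h5 Q).2.1 hQ, Q.2⟩
    · rintro ⟨Q, hQ, hQs⟩
      refine ⟨⟨Q, hQs⟩, mem_univ _, ?_⟩
      rw [one_mul]
      exact (h5 _).2.2 hQ

end Pool.Agent.TH700.PT
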