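import Pool.Agent.TH700.PT.Density
import Pool.Agent.TH700.PT.Count
import Pool.Agent.TH700.PT.CoverDefs
import Mathlib.Data.Finset.Sym
import Mathlib.Data.Sym.Card
import Mathlib.Data.Finset.Interval

/-!
# Vertex cover
-/

set_option autoImplicit false

open Finset

namespace Pool.Agent.TH700.PT

open Pool.Agent.TH700.TN Pool.Agent.TH700.GT

variable {n t : ℕ}

/-- The graph in which exactly the pairs inside `A` are missing. -/
def cg (A : Finset (Fin n)) : Sym2 (Fin n) → Bool := fun e => !(decide (e ∈ A.sym2))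

/-- The pairs of distinct members of `Q` in the part `j`. -/
def pr (p : Sym2 (Fin n) → Fin t) (Q : Finset (Fin n)) (j : Fin t) : Finset (Fin n × Fin n) :=
  Q.offDiag.filter (fun q => p s(q.1, q.2) = j)

/-- The members of `Q` in the pairs of the part `j`. -/
def tu (p : Sym2 (Fin n) → Fin t) (Q : Finset (Fin n)) (j : Fin t) : Finset (Fin n) :=
  (pr p Q j).image Prod.fst

theorem card_pr_le (p : Sym2 (Fin n) → Fin t) (Q : Finset (Fin n)) (j : Fin t) :
    (pr p Q j).card ≤ (tu p Q j).card * (tu p Q j).card := by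
  rw [← card_product]
  refine card_le_card fun q hq => ?_
  rw [mem_product]
  refine ⟨mem_image.2 ⟨q, hq, rfl⟩, mem_image.2 ⟨(q.2, q.1), ?_, rfl⟩⟩
  unfold pr at hq ⊢
  rw [mem_filter, mem_offDiag] at hq ⊢
  refine ⟨⟨hq.1.2.1, hq.1.1, hq.1.2.2.symm⟩, ?_⟩
  show p s(q.2, q.1) = j
  rw [Sym2.eq_swap]
  exact hq.2

theorem card_pr_le' (p : Sym2 (Fin n) → Fin t) (Q : Finset (Fin n)) (j : Fin t) :
    (pr p Q j).card ≤ 2 * (univ.filter (fun e => p e = j)).card := by
  have h1 : (pr p Q j).card ≤ 2 * ((pr p Q j).image (Sym2.mk.uncurry)).card := by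
    refine card_le_mul_card_image _ 2 fun e he => ?_
    obtain ⟨q, hq, rfl⟩ := mem_image.1 he
    have h2 : (pr p Q j).filter (fun a => Sym2.mk.uncurry a = Sym2.mk.uncurry q) ⊆
        {q, (q.2, q.1)} := by
      intro a ha
      have h3 := (mem_filter.1 ha).2
      have h4 : s(a.1, a.2) = s(q.1, q.2) := h3
      rw [Sym2.eq_iff] at h4
      rw [mem_insert, mem_singleton]
      rcases h4 with ⟨h5, h6⟩ | ⟨h5, h6⟩
      · exact Or.inl (Prod.ext h5 h6)
      · exact Or.inr (Prod.ext h5 h6)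
    exact (card_le_card h2).trans card_le_two
  refine h1.trans (Nat.mul_le_mul_left _ (card_le_card fun e he => ?_))
  obtain ⟨q, hq, rfl⟩ := mem_image.1 he
  exact mem_filter.2 ⟨mem_univ _, (mem_filter.1 hq).2⟩

theorem sum_pr (p : Sym2 (Fin n) → Fin t) (Q : Finset (Fin n)) :
    ∑ j, (pr p Q j).card = Q.card * Q.card - Q.card := by
  rw [← offDiag_card]
  exact (card_eq_sum_card_fiberwise (f := fun q : Fin n × Fin n => p s(q.1, q.2)) (t := univ)
    (fun q _ => mem_univ _)).symm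

/-- The members of a clique of the mixture are in many of the sets. -/
theorem sum_tu {y θ : ℕ} (hθ : θ = y ^ 2) (p : Sym2 (Fin n) → Fin t)
    (hb : ∀ j, (univ.filter (fun e => p e = j)).card ≤ 2 * θ) (Q : Finset (Fin n)) :
    Q.card * Q.card - Q.card ≤ 2 * y * ∑ j, (tu p Q j).card := by
  rw [← sum_pr p Q, mul_sum]
  refine sum_le_sum fun j _ => ?_
  have h1 := card_pr_le p Q j
  have h2 := (card_pr_le' p Q j).trans (Nat.mul_le_mul_left 2 (hb j))
  obtain ⟨k, hk⟩ : ∃ k, k = (tu p Q j).card := ⟨_, rfl⟩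
  rw [← hk] at h1 ⊢
  rcases le_total k (2 * y) with h3 | h3
  · exact h1.trans (Nat.mul_le_mul_right _ h3)
  · refine h2.trans ?_
    rw [hθ]
    calc 2 * (2 * y ^ 2) = 2 * y * (2 * y) := by ring
      _ ≤ _ := Nat.mul_le_mul_left _ h3

/-- The sets of patterns which contain the given sets. -/
def sup (X : Fin t → Finset (Fin n)) : Finset (Fin t → Finset (Fin n)) :=
  Fintype.piFinset (fun j => Icc (X j) univ)

theorem card_sup (X : Fin t → Finset (Fin n)) :
    (sup X).card * 2 ^ (∑ j, (X j).card) = (2 ^ n) ^ t := by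
  unfold sup
  rw [Fintype.card_piFinset]
  have h1 : ∀ j, (Icc (X j) univ).card * 2 ^ (X j).card = 2 ^ n := by
    intro j
    rw [card_Icc_finset (subset_univ _), ← pow_add, card_univ, Fintype.card_fin,
      Nat.sub_add_cancel]
    have := card_le_univ (X j)
    rwa [Fintype.card_fin] at this
  rw [← prod_pow_eq_pow_sum, ← prod_mul_distrib, prod_congr rfl fun j _ => h1 j, prod_const,
    card_univ, Fintype.card_fin]

/-- Most mixtures have no large clique. -/
theorem few_bad {g y θ : ℕ} (hg : 1 ≤ g) (hy : 1 ≤ y) (hn1 : 16 * g ^ 2 * y ≤ n)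
    (hθ : θ = y ^ 2) (p : Sym2 (Fin n) → Fin t)
    (hb : ∀ j, (univ.filter (fun e => p e = j)).card ≤ 2 * θ) :
    ∃ B : Finset (Fin t → Finset (Fin n)),
      (∀ b, (∃ Q : Finset (Fin n), n ≤ g * Q.card ∧
        ∀ u ∈ Q, ∀ v ∈ Q, u ≠ v → s(u, v) ∈ (b (p s(u, v))).sym2) → b ∈ B) ∧
      B.card * 2 ^ (3 * n) ≤ (2 ^ n) ^ t := by
  classical
  obtain ⟨F, hF⟩ : ∃ F : Finset (Finset (Fin n)), F = univ.filter (fun Q => n ≤ g * Q.card) :=
    ⟨_, rfl⟩
  have hsum : ∀ Q ∈ F, 4 * n ≤ ∑ j, (tu p Q j).card := by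
    intro Q hQ
    rw [hF, mem_filter] at hQ
    have h1 := sum_tu hθ p hb Q
    obtain ⟨q, hq⟩ : ∃ q, q = Q.card := ⟨_, rfl⟩
    obtain ⟨S, hS⟩ : ∃ S, S = ∑ j, (tu p Q j).card := ⟨_, rfl⟩
    rw [← hq, ← hS] at h1
    rw [← hS]
    have h2 : n ≤ g * q := by rw [hq]; exact hQ.2
    -- `q ≥ 16 g y`
    have h3 : 16 * g * y ≤ q := by
      refine Nat.le_of_mul_le_mul_left (c := g) ?_ (by omega)
      refine le_trans ?_ h2
      calc g * (16 * g * y) = 16 * g ^ 2 * y := by ring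
        _ ≤ n := hn1
    have h4 : 16 ≤ q := by nlinarith
    by_contra hcon
    rw [not_le] at hcon
    have h5 : 2 * y * S ≤ 2 * y * (4 * n) := Nat.mul_le_mul_left _ hcon.le
    have h6 : q * q ≤ 2 * y * (4 * n) + q := by omega
    have h7 : 2 * y * (4 * n) ≤ 8 * y * (g * q) := by nlinarith
    have h8 : 16 * g * y * q ≤ q * q := Nat.mul_le_mul_right q h3
    have h9 : 8 * y * (g * q) * 2 = 16 * g * y * q := by ring
    have h10 : 2 * (q * q) ≤ q * q + 2 * q := by omega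
    nlinarith
  refine ⟨F.biUnion (fun Q => sup (tu p Q)), fun b hbQ => ?_, ?_⟩
  · obtain ⟨Q, hQn, hQ⟩ := hbQ
    rw [mem_biUnion]
    refine ⟨Q, by rw [hF]; exact mem_filter.2 ⟨mem_univ _, hQn⟩, ?_⟩
    unfold sup
    rw [Fintype.mem_piFinset]
    intro j
    rw [mem_Icc]
    refine ⟨fun u hu => ?_, subset_univ _⟩
    obtain ⟨⟨a, v⟩, hq, rfl⟩ := mem_image.1 hu
    unfold pr at hq
    rw [mem_filter, mem_offDiag] at hq
    obtain ⟨⟨ha, hv, hav⟩, hj⟩ := hq
    have h1 := hQ a ha v hv hav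
    have hj' : p s(a, v) = j := hj
    rw [hj'] at h1
    exact (mk_mem_sym2_iff.1 h1).1
  · have h1 : ∀ Q ∈ F, (sup (tu p Q)).card * 2 ^ (4 * n) ≤ (2 ^ n) ^ t := by
      intro Q hQ
      rw [← card_sup (tu p Q)]
      exact Nat.mul_le_mul_left _ (Nat.pow_le_pow_right (by norm_num) (hsum Q hQ))
    have h2 : F.card ≤ 2 ^ n := by
      have := card_le_univ F
      rwa [Fintype.card_finset, Fintype.card_fin] at this
    have h3 : (F.biUnion (fun Q => sup (tu p Q))).card * 2 ^ (4 * n) ≤ 2 ^ n * (2 ^ n) ^ t := by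
      calc (F.biUnion (fun Q => sup (tu p Q))).card * 2 ^ (4 * n) ≤
          (∑ Q ∈ F, (sup (tu p Q)).card) * 2 ^ (4 * n) := Nat.mul_le_mul_right _ card_biUnion_le
        _ = ∑ Q ∈ F, (sup (tu p Q)).card * 2 ^ (4 * n) := by rw [sum_mul]
        _ ≤ ∑ _Q ∈ F, (2 ^ n) ^ t := sum_le_sum h1
        _ = F.card * (2 ^ n) ^ t := by rw [sum_const, smul_eq_mul]
        _ ≤ _ := Nat.mul_le_mul_right _ h2
    refine Nat.le_of_mul_le_mul_left (c := 2 ^ n) ?_ (by positivity)
    refine le_trans (le_of_eq ?_) h3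
    rw [show 4 * n = 3 * n + n by ring, pow_add]
    ring

/-- At least half of the sets have at least half of the vertices. -/
theorem card_half (n : ℕ) : Fintype.card (Finset (Fin n)) ≤
    2 ^ 1 * (univ.filter (fun A : Finset (Fin n) => n ≤ 2 * A.card)).card := by
  classical
  have h1 : (univ : Finset (Finset (Fin n))) ⊆
      univ.filter (fun A : Finset (Fin n) => n ≤ 2 * A.card) ∪
      (univ.filter (fun A : Finset (Fin n) => n ≤ 2 * A.card)).image compl := by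
    intro A _
    rw [mem_union, mem_filter, mem_image]
    by_cases h : n ≤ 2 * A.card
    · exact Or.inl ⟨mem_univ _, h⟩
    · refine Or.inr ⟨Aᶜ, mem_filter.2 ⟨mem_univ _, ?_⟩, compl_compl A⟩
      rw [card_compl, Fintype.card_fin]
      omega
  have h2 := (card_le_card h1).trans (card_union_le _ _)
  have h3 := card_image_le (s := univ.filter (fun A : Finset (Fin n) => n ≤ 2 * A.card))
    (f := compl)
  rw [card_univ] at h2
  omega

theorem main_cover {g : ℕ} (hg : 1 ≤ g) : ∃ D : ℕ, ∀ n : ℕ, D ≤ n →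
    ∀ (μ : ℕ) (R : Type) [Fintype R] [Nonempty R] (K W : R → Type) [∀ ρ, Field (K ρ)]
      [∀ ρ, Fintype (W ρ)] (T : ∀ ρ, Net (K ρ) (Sym2 (Fin n)) (W ρ)) (a : ∀ ρ, W ρ → K ρ),
      (∀ ρ e, (T ρ).reads e ≤ 1) →
      (∀ ρ x, (∀ C, Cover x C → (g - 1) * n < g * C.card) → (T ρ).value (a ρ) x = 0) →
      (∀ x, (∃ C, Cover x C ∧ 2 * C.card ≤ n) →
        Nat.card R ≤ 2 ^ μ * Nat.card {ρ // (T ρ).value (a ρ) x ≠ 0}) →
      ∃ ρ, 2 ^ n ≤ (2 ^ μ * Fintype.card (W ρ)) ^ D := by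
  classical
  obtain ⟨t, ht⟩ : ∃ t, t = 2048 * g ^ 4 + 1 := ⟨_, rfl⟩
  refine ⟨16 * g ^ 2 + 3 * (t + 1) + (t + 1) * (t + 4), fun n hn μ R _ _ K W _ _ T a h1 hno hyes =>
    ?_⟩
  have hg2 : 1 ≤ g ^ 2 := Nat.one_le_pow _ _ hg
  obtain ⟨y, hy⟩ : ∃ y, y = n / (16 * g ^ 2) := ⟨_, rfl⟩
  have hy1 : 1 ≤ y := by
    rw [hy]
    exact Nat.div_pos (by omega) (by omega)
  have hyn : 16 * g ^ 2 * y ≤ n := by
    rw [hy]
    exact Nat.mul_div_le n _
  have hny : n < 16 * g ^ 2 * (y + 1) := by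
    rw [hy]
    exact Nat.lt_mul_div_succ n (by omega)
  have hn1 : 1 ≤ n := by omega
  have hV : 2 * Fintype.card (Sym2 (Fin n)) = n * (n + 1) := by
    rw [Sym2.card, Fintype.card_fin, Nat.choose_two_right, Nat.add_sub_cancel,
      Nat.mul_div_cancel']
    · ring
    · rw [mul_comm]
      exact (Nat.even_mul_succ_self n).two_dvd
  have hE : 2 * Fintype.card (Sym2 (Fin n)) + y ^ 2 ≤ y ^ 2 * t := by
    rw [hV, ht]
    have e1 : n ≤ 32 * g ^ 2 * y := by nlinarith
    have e2 : n * n ≤ (32 * g ^ 2 * y) * (32 * g ^ 2 * y) := Nat.mul_le_mul e1 e1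
    have e3 : n * (n + 1) ≤ 2 * (n * n) := by nlinarith
    calc n * (n + 1) + y ^ 2 ≤ 2 * ((32 * g ^ 2 * y) * (32 * g ^ 2 * y)) + y ^ 2 :=
          Nat.add_le_add_right (e3.trans (Nat.mul_le_mul_left _ e2)) _
      _ = _ := by ring
  obtain ⟨ρ, hρ, hw1⟩ := rand_density μ R K W T a h1 (θ := y ^ 2) (t := t)
    (Nat.one_le_pow _ _ hy1) (by omega) hE (U := Finset (Fin n)) cg
    (univ.filter (fun A : Finset (Fin n) => n ≤ 2 * A.card)) (η := 1) (card_half n)
    (fun A hA => hyes _ ⟨Aᶜ, fun u v huv hx => by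
      by_contra hcon
      push Not at hcon
      unfold cg at hx
      rw [mem_compl, mem_compl, not_not, not_not] at hcon
      have h2 : s(u, v) ∈ A.sym2 := mk_mem_sym2_iff.2 hcon
      simp [h2] at hx, by
      have h2 := (mem_filter.1 hA).2
      rw [card_compl, Fintype.card_fin]
      omega⟩) (N := 2 ^ (3 * n)) (fun ρ p hp => by
        obtain ⟨B, hB1, hB2⟩ := few_bad hg hy1 hyn rfl p hp
        refine ⟨B, fun b hb => hB1 b ?_, by
          rw [Fintype.card_finset, Fintype.card_fin]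
          exact hB2⟩
        by_contra hcon
        push Not at hcon
        refine hb (hno ρ _ fun C hC => ?_)
        by_contra hcon2
        rw [not_lt] at hcon2
        obtain ⟨u, hu, v, hv, huv, hnot⟩ := hcon Cᶜ (by
          rw [card_compl, Fintype.card_fin]
          have e1 : C.card ≤ n := by
            have := card_le_univ C
            rwa [Fintype.card_fin] at this
          obtain ⟨c, hc⟩ := Nat.exists_eq_add_of_le e1
          obtain ⟨g', rfl⟩ := Nat.exists_eq_add_of_le hg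
          rw [Nat.add_sub_cancel_left] at hcon2
          rw [Nat.mul_sub]
          have e2 : (1 + g') * n = g' * n + n := by ring
          omega)
        rw [mem_compl] at hu hv
        refine (hC u v huv ?_).elim hu hv
        have h3 : decide (s(u, v) ∈ (b (p s(u, v))).sym2) = false := decide_eq_false hnot
        show (!(decide (s(u, v) ∈ (b (p s(u, v))).sym2))) = true
        rw [h3]
        rfl)
  refine ⟨ρ, ?_⟩
  obtain ⟨w, hw⟩ : ∃ w, w = Fintype.card (W ρ) := ⟨_, rfl⟩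
  rw [← hw] at hρ hw1 ⊢
  obtain ⟨X, hX⟩ : ∃ X, X = 2 ^ μ * w := ⟨_, rfl⟩
  have hX1 : 1 ≤ X := by
    rw [hX]
    exact Nat.mul_pos (Nat.pow_pos (by norm_num)) hw1
  rw [← hX]
  have e1 : 2 ^ (μ + 1 + 1) * (t * w ^ 3) ≤ 2 ^ (t + 4) * X ^ 3 := by
    have e2 : t ≤ 2 ^ t := Nat.lt_two_pow_self.le
    have e3 : 2 ^ μ ≤ (2 ^ μ) ^ 3 := by
      conv_lhs => rw [← pow_one (2 ^ μ)]
      exact Nat.pow_le_pow_right (Nat.pow_pos (by norm_num)) (by norm_num)
    calc 2 ^ (μ + 1 + 1) * (t * w ^ 3) = 4 * (2 ^ μ * (t * w ^ 3)) := by rw [pow_succ, pow_succ]; ring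
      _ ≤ 16 * ((2 ^ μ) ^ 3 * (2 ^ t * w ^ 3)) := by
        refine Nat.mul_le_mul (by norm_num) (Nat.mul_le_mul e3 (Nat.mul_le_mul_right _ e2))
      _ = _ := by rw [hX, pow_add]; ring
  have e4 : 2 ^ (3 * n) ≤ 2 ^ ((t + 4) * (t + 1)) * X ^ (3 * (t + 1)) := by
    calc 2 ^ (3 * n) ≤ (2 ^ (t + 4) * X ^ 3) ^ (t + 1) := hρ.trans (Nat.pow_le_pow_left e1 _)
      _ = _ := by rw [mul_pow, ← pow_mul, ← pow_mul]
  have e5 : 2 ^ ((t + 4) * (t + 1)) ≤ 2 ^ (2 * n) := by
    refine Nat.pow_le_pow_right (by norm_num) ?_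
    have : (t + 4) * (t + 1) = (t + 1) * (t + 4) := mul_comm _ _
    omega
  have e6 : 2 ^ n ≤ X ^ (3 * (t + 1)) := by
    refine Nat.le_of_mul_le_mul_left (c := 2 ^ (2 * n)) ?_ (by positivity)
    rw [← pow_add, show 2 * n + n = 3 * n by ring]
    exact e4.trans (Nat.mul_le_mul_right _ e5)
  exact e6.trans (Nat.pow_le_pow_right hX1 (by omega))

/-- Conversely vertex covers are counted by linear networks. -/
theorem upper_cover (k : ℕ) {n : ℕ} (hn : 1 ≤ n) :
    ∃ (T : Net ℚ (Sym2 (Fin n)) {C : Finset (Fin n) // C.card ≤ k})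
      (a : {C : Finset (Fin n) // C.card ≤ k} → ℚ),
      T.Linear ∧ (∀ e, T.reads e = 1) ∧ T.size = n * (n + 1) - 1 ∧
        ∀ x, T.value a x ≠ 0 ↔ ∃ C, Cover x C ∧ C.card ≤ k := by
  classical
  have : Nonempty (Fin n) := ⟨⟨0, hn⟩⟩
  have : Nonempty (Sym2 (Fin n)) := ⟨s(⟨0, hn⟩, ⟨0, hn⟩)⟩
  obtain ⟨T, h1, h2, h3, h4⟩ := exists_product (K := ℚ)
    (fun (e : Sym2 (Fin n)) (b : Bool) (C : {C : Finset (Fin n) // C.card ≤ k}) =>
      if e ∈ (C.1ᶜ).sym2 ∧ ¬ e.IsDiag ∧ b = true then (0 : ℚ) else 1)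
  refine ⟨T, fun _ => 1, h1, h2, ?_, fun x => ?_⟩
  · rw [h3, Sym2.card, Fintype.card_fin, Nat.choose_two_right, Nat.add_sub_cancel,
      Nat.mul_div_cancel']
    · rw [mul_comm]
    · rw [mul_comm]
      exact (Nat.even_mul_succ_self n).two_dvd
  · have h5 : ∀ C : {C : Finset (Fin n) // C.card ≤ k}, 0 ≤ T.eval x C ∧
        (T.eval x C ≠ 0 ↔ Cover x C.1) := by
      intro C
      rw [h4]
      refine ⟨prod_nonneg fun e _ => by split_ifs <;> norm_num, ?_⟩
      rw [prod_ne_zero_iff]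
      constructor
      · intro h u v huv hx
        by_contra hcon
        push Not at hcon
        refine h s(u, v) (mem_univ _) (if_pos ⟨mk_mem_sym2_iff.2 ⟨mem_compl.2 hcon.1,
          mem_compl.2 hcon.2⟩, ?_, hx⟩)
        rw [Sym2.mk_isDiag_iff]
        exact huv
      · intro h e _
        rw [if_neg]
        · exact one_ne_zero
        · rintro ⟨he, hd, hx⟩
          revert he hd hx
          refine Sym2.ind (fun u v => ?_) e
          intro he hd hx
          rw [mk_mem_sym2_iff, mem_compl, mem_compl] at he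
          rw [Sym2.mk_isDiag_iff] at hd
          exact (h u v hd hx).elim he.1 he.2
    unfold Net.value
    rw [Ne, sum_eq_zero_iff_of_nonneg (fun k _ => by
      rw [one_mul]
      exact (h5 k).1)]
    push Not
    constructor
    · rintro ⟨C, -, hC⟩
      rw [one_mul] at hC
      exact ⟨C.1, (h5 C).2.1 hC, C.2⟩
    · rintro ⟨C, hC, hCk⟩
      refine ⟨⟨C, hCk⟩, mem_univ _, ?_⟩
      rw [one_mul]
      exact (h5 _).2.2 hC

end Pool.Agent.TH700.PT
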