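import Pool.Agent.TH700.GT.Cut

/-!
# Ranks of functions for partitions of the variables, and the replacement lemma
-/

set_option autoImplicit false

open Finset

namespace Pool.Agent.TH700.PT

open Pool.Agent.TH700.TN Pool.Agent.TH700.GT

variable {V K : Type}

/-- The function `f` has rank at most `d` for the partition of the variables into `A` and the
others. -/
def Rk [Semiring K] (d : ℕ) (f : (V → Bool) → K) (A : Finset V) : Prop :=
  ∃ (J : Type) (_ : Fintype J) (g H : (V → Bool) → J → K), Fintype.card J ≤ d ∧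
    (∀ z z', (∀ v ∈ A, z v = z' v) → g z = g z') ∧
    (∀ z z', (∀ v, v ∉ A → z v = z' v) → H z = H z') ∧ ∀ z, f z = ∑ k, g z k * H z k

theorem rk_of_cut [Fintype V] [Semiring K] {W : Type} [Fintype W] {f : (V → Bool) → K}
    {A : Finset V} (h : CutV W f A) : Rk (Fintype.card W) f A := by
  obtain ⟨g, H, h1, h2, h3⟩ := h
  exact ⟨W, inferInstance, g, H, le_rfl, h1, h2, h3⟩

theorem rk_mono [Semiring K] {d d' : ℕ} (hd : d ≤ d') {f : (V → Bool) → K}
    {A : Finset V} (h : Rk d f A) : Rk d' f A := by
  obtain ⟨J, i, g, H, h0, h1, h2, h3⟩ := h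
  exact ⟨J, i, g, H, h0.trans hd, h1, h2, h3⟩

theorem rk_compl [Fintype V] [DecidableEq V] [CommSemiring K] {d : ℕ} {f : (V → Bool) → K}
    {A : Finset V} (h : Rk d f A) : Rk d f Aᶜ := by
  obtain ⟨J, i, g, H, h0, h1, h2, h3⟩ := h
  refine ⟨J, i, H, g, h0, fun z z' h => h2 z z' fun v hv => h v (mem_compl.2 hv), fun z z' h =>
    h1 z z' fun v hv => h v (by simpa using hv), fun z => ?_⟩
  rw [h3]
  exact sum_congr rfl fun k _ => mul_comm _ _

theorem rk_empty [Semiring K] {d : ℕ} (hd : 1 ≤ d) (f : (V → Bool) → K) :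
    Rk d f (∅ : Finset V) := by
  refine ⟨Unit, inferInstance, fun _ _ => 1, fun z _ => f z, by simpa using hd,
    fun _ _ _ => rfl, fun z z' h => ?_, fun z => by simp⟩
  have : z = z' := funext fun v => h v (notMem_empty v)
  rw [this]

/-- Interpolation: the values of the variables in `A` may be replaced by `d` fixed values. -/
theorem interp [Fintype V] [Field K] {d : ℕ} {f : (V → Bool) → K} {A : Finset V}
    (h : Rk d f A) : ∃ (J : Type) (_ : Fintype J) (y : J → V → Bool) (c : (V → Bool) → J → K),
      Fintype.card J ≤ d ∧ (∀ z z', (∀ v ∈ A, z v = z' v) → c z = c z') ∧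
      ∀ z, f z = ∑ j, c z j * f (mix A (y j) z) := by
  classical
  obtain ⟨J, i, g, H, h0, h1, h2, h3⟩ := h
  obtain ⟨b, -, -, hb, hli⟩ := exists_linearIndepOn_extension (K := K) (v := g)
    (s := (∅ : Set (V → Bool))) (t := Set.univ) (linearIndepOn_empty K g) (Set.subset_univ _)
  have hfin : Fintype b := Fintype.ofFinite b
  have h4 := LinearIndependent.fintype_card_le_finrank hli
  rw [Module.finrank_fintype_fun_eq_card] at h4
  have hspan : ∀ z, ∃ c : b → K, ∑ j, c j • g j.1 = g z := by
    intro z
    have h5 : g z ∈ Submodule.span K (g '' b) := hb ⟨z, Set.mem_univ z, rfl⟩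
    have h6 : g '' b = Set.range (fun j : b => g j.1) := by
      ext w
      constructor
      · rintro ⟨j, hj, rfl⟩
        exact ⟨⟨j, hj⟩, rfl⟩
      · rintro ⟨j, rfl⟩
        exact ⟨j.1, j.2, rfl⟩
    rw [h6] at h5
    exact (Submodule.mem_span_range_iff_exists_fun K).1 h5
  -- choose the coefficients as a function of the value of `g`
  have hch : ∀ w : J → K, ∃ c : b → K, (∃ z, g z = w) → ∑ j, c j • g j.1 = w := by
    intro w
    by_cases hw : ∃ z, g z = w
    · obtain ⟨z, rfl⟩ := hw
      obtain ⟨c, hc⟩ := hspan z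
      exact ⟨c, fun _ => hc⟩
    · exact ⟨0, fun h => absurd h hw⟩
  choose c hc using hch
  refine ⟨b, hfin, fun j => j.1, fun z => c (g z), h4.trans h0, fun z z' h => ?_, fun z => ?_⟩
  · show c (g z) = c (g z')
    rw [h1 z z' h]
  · have e1 : ∀ j : b, f (mix A j.1 z) = ∑ k, g j.1 k * H z k := by
      intro j
      rw [h3, h1 (mix A j.1 z) j.1 (fun v hv => by unfold mix; rw [if_pos hv]),
        h2 (mix A j.1 z) z (fun v hv => by unfold mix; rw [if_neg hv])]
    simp only [e1, mul_sum]
    rw [sum_comm, h3]
    refine sum_congr rfl fun k _ => ?_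
    have e2 := congrFun (hc (g z) ⟨z, rfl⟩) k
    rw [← e2]
    simp only [Finset.sum_apply, Pi.smul_apply, smul_eq_mul, Finset.sum_mul]
    exact sum_congr rfl fun j _ => by ring

theorem rk_union [Fintype V] [DecidableEq V] [Field K] {d d' : ℕ} {f : (V → Bool) → K}
    {A B : Finset V} (hA : Rk d f A) (hB : Rk d' f B) (hAB : Disjoint A B) :
    Rk (d * d') f (A ∪ B) := by
  classical
  obtain ⟨J, i, y, c, h0, h1, h2⟩ := interp hA
  obtain ⟨J', i', y', c', h0', h1', h2'⟩ := interp hB
  refine ⟨J × J', inferInstance, fun z p => c z p.1 * c' z p.2,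
    fun z p => f (mix A (y p.1) (mix B (y' p.2) z)), ?_, fun z z' h => ?_, fun z z' h => ?_,
    fun z => ?_⟩
  · rw [Fintype.card_prod]
    exact Nat.mul_le_mul h0 h0'
  · funext p
    show c z p.1 * c' z p.2 = c z' p.1 * c' z' p.2
    rw [h1 z z' (fun v hv => h v (mem_union_left _ hv)),
      h1' z z' (fun v hv => h v (mem_union_right _ hv))]
  · funext p
    show f (mix A (y p.1) (mix B (y' p.2) z)) = f (mix A (y p.1) (mix B (y' p.2) z'))
    congr 1
    funext v
    unfold mix
    by_cases hv : v ∈ A
    · rw [if_pos hv, if_pos hv]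
    · rw [if_neg hv, if_neg hv]
      by_cases hv' : v ∈ B
      · rw [if_pos hv', if_pos hv']
      · rw [if_neg hv', if_neg hv']
        exact h v (fun h' => (mem_union.1 h').elim hv hv')
  · rw [Fintype.sum_prod_type]
    have e1 : ∀ j, f (mix A (y j) z) = ∑ j', c' z j' * f (mix A (y j) (mix B (y' j') z)) := by
      intro j
      rw [h2' (mix A (y j) z)]
      refine sum_congr rfl fun j' _ => ?_
      rw [h1' (mix A (y j) z) z (fun v hv => by
        unfold mix
        rw [if_neg (disjoint_right.1 hAB hv)])]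
      congr 2
      funext v
      unfold mix
      by_cases hv : v ∈ A
      · rw [if_pos hv, if_neg (disjoint_left.1 hAB hv), if_pos hv]
      · rw [if_neg hv, if_neg hv]
    rw [h2 z]
    refine sum_congr rfl fun j _ => ?_
    rw [e1, mul_sum]
    exact sum_congr rfl fun j' _ => by ring

/-- Successive bases. -/
theorem bases [Field K] {ι : Type} [DecidableEq ι] (d : ℕ) : ∀ (t : ℕ) (J : Fin t → Type)
    (_ : ∀ j, Fintype (J j)) (φ : ∀ j, ι → J j → K) (_ : ∀ j, Fintype.card (J j) ≤ d)
    (s : Finset ι), ∃ B : Fin t → Finset ι, (∀ j, B j ⊆ s) ∧ (∀ j, (B j).card ≤ d) ∧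
      (∀ i j, i ≠ j → Disjoint (B i) (B j)) ∧
      ∀ x ∈ s, (∀ j, x ∉ B j) → ∀ j, φ j x ∈ Submodule.span K (φ j '' (B j : Set ι)) := by
  intro t
  induction t with
  | zero =>
    intro J _ φ _ s
    exact ⟨fun j => j.elim0, fun j => j.elim0, fun j => j.elim0, fun j => j.elim0,
      fun _ _ _ j => j.elim0⟩
  | succ t ih =>
    intro J _ φ hd s
    obtain ⟨b, hb1, -, hb, hli⟩ := exists_linearIndepOn_extension (K := K) (v := φ 0)
      (s := (∅ : Set ι)) (t := (s : Set ι)) (linearIndepOn_empty K (φ 0)) (Set.empty_subset _)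
    have hbf : b.Finite := s.finite_toSet.subset hb1
    obtain ⟨B₀, rfl⟩ : ∃ B₀ : Finset ι, (B₀ : Set ι) = b := ⟨hbf.toFinset, hbf.coe_toFinset⟩
    have h4 := LinearIndependent.fintype_card_le_finrank hli
    rw [Module.finrank_fintype_fun_eq_card] at h4
    have h4' : B₀.card ≤ Fintype.card (J 0) := by
      refine le_trans (le_of_eq ?_) h4
      simp
    obtain ⟨B, g1, g2, g3, g4⟩ := ih (fun j => J j.succ) (fun j => inferInstance)
      (fun j => φ j.succ) (fun j => hd j.succ) (s \ B₀)
    refine ⟨Fin.cons B₀ B, ?_, ?_, ?_, ?_⟩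
    · intro j
      refine Fin.cases ?_ (fun j => ?_) j
      · rw [Fin.cons_zero]
        exact_mod_cast hb1
      · rw [Fin.cons_succ]
        exact (g1 j).trans sdiff_subset
    · intro j
      refine Fin.cases ?_ (fun j => ?_) j
      · rw [Fin.cons_zero]
        exact h4'.trans (hd 0)
      · rw [Fin.cons_succ]
        exact g2 j
    · have hdis : ∀ j, Disjoint B₀ (B j) := fun j =>
        disjoint_left.2 fun x hx hx' => (mem_sdiff.1 (g1 j hx')).2 hx
      intro i j
      refine Fin.cases (Fin.cases ?_ (fun j => ?_) j) (fun i => Fin.cases ?_ (fun j => ?_) j) i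
      · intro h
        exact absurd rfl h
      · intro _
        rw [Fin.cons_zero, Fin.cons_succ]
        exact hdis j
      · intro _
        rw [Fin.cons_zero, Fin.cons_succ]
        exact (hdis i).symm
      · intro h
        rw [Fin.cons_succ, Fin.cons_succ]
        exact g3 i j fun h' => h (by rw [h'])
    · intro x hx hxB j
      refine Fin.cases ?_ (fun j => ?_) j
      · rw [Fin.cons_zero]
        exact hb ⟨x, hx, rfl⟩
      · rw [Fin.cons_succ]
        refine g4 x (mem_sdiff.2 ⟨hx, ?_⟩) (fun j => ?_) j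
        · have := hxB 0
          rwa [Fin.cons_zero] at this
        · have := hxB j.succ
          rwa [Fin.cons_succ] at this

/-- The mixture of the inputs `z (a j)` for the parts `P j`. -/
def mixp {t : ℕ} {ι : Type} (p : V → Fin t) (z : ι → V → Bool) (a : Fin t → ι) : V → Bool :=
  fun v => z (a (p v)) v

/-- The replacement lemma. -/
theorem replacement [Fintype V] [DecidableEq V] [Field K] {d t : ℕ} {f : (V → Bool) → K}
    (p : V → Fin t) (hP : ∀ j, Rk d f (univ.filter (fun v => p v = j))) {ι : Type} (s : Finset ι)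
    (z : ι → V → Bool) (hd : ∀ i ∈ s, f (z i) ≠ 0)
    (ho : ∀ a : Fin t → ι, (∀ j, a j ∈ s) → Function.Injective a → f (mixp p z a) = 0) :
    s.card ≤ t * d := by
  classical
  by_contra hcon
  rw [not_le] at hcon
  unfold Rk at hP
  choose J i g H h0 h1 h2 h3 using hP
  obtain ⟨B, b1, b2, b3, b4⟩ := bases d t J i (fun j x => g j (z x)) h0 s
  have hcard : (univ.biUnion B).card ≤ t * d := by
    refine card_biUnion_le.trans ?_
    calc ∑ j, (B j).card ≤ ∑ _j : Fin t, d := sum_le_sum fun j _ => b2 j
      _ = t * d := by simp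
  obtain ⟨x, hx⟩ : (s \ univ.biUnion B).Nonempty := by
    rw [← card_pos]
    have := le_card_sdiff (univ.biUnion B) s
    omega
  rw [mem_sdiff, mem_biUnion] at hx
  obtain ⟨hxs, hxB⟩ := hx
  push Not at hxB
  have hxB' : ∀ j, x ∉ B j := fun j => hxB j (mem_univ j)
  have hsp := b4 x hxs hxB'
  -- the values on the mixtures
  have hval : ∀ (a : Fin t → ι) (j : Fin t) (y : ι), f (mixp p z (Function.update a j y)) =
      ∑ k, g j (z y) k * H j (mixp p z a) k := by
    intro a j y
    rw [h3 j, h1 j (mixp p z (Function.update a j y)) (z y) (fun v hv => ?_),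
      h2 j (mixp p z (Function.update a j y)) (mixp p z a) (fun v hv => ?_)]
    · have hv' : p v ≠ j := fun h => hv (mem_filter.2 ⟨mem_univ v, h⟩)
      unfold mixp
      rw [Function.update_of_ne hv']
    · have hv' : p v = j := (mem_filter.1 hv).2
      unfold mixp
      rw [hv', Function.update_self]
  -- one replacement
  have hone : ∀ (a : Fin t → ι) (j : Fin t), (∀ y ∈ B j, f (mixp p z (Function.update a j y)) = 0) →
      f (mixp p z (Function.update a j x)) = 0 := by
    intro a j hz
    rw [hval]
    have hle : Submodule.span K ((fun y => g j (z y)) '' (B j : Set ι)) ≤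
        LinearMap.ker (Fintype.linearCombination K (H j (mixp p z a))) := by
      rw [Submodule.span_le]
      rintro _ ⟨y, hy, rfl⟩
      have h5 := hz y hy
      rw [hval] at h5
      rw [SetLike.mem_coe, LinearMap.mem_ker, Fintype.linearCombination_apply]
      simpa only [smul_eq_mul] using h5
    have h6 := hle (hsp j)
    rw [LinearMap.mem_ker, Fintype.linearCombination_apply] at h6
    simpa only [smul_eq_mul] using h6
  -- all replacements
  have key : ∀ S : Finset (Fin t), ∀ a : Fin t → ι, (∀ j ∈ S, a j = x) → (∀ j, j ∉ S → a j ∈ B j) →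
      f (mixp p z a) = 0 := by
    intro S
    induction S using Finset.induction_on with
    | empty =>
      intro a _ ha
      refine ho a (fun j => b1 j (ha j (notMem_empty j))) fun i j hij => ?_
      by_contra hne
      have h5 := ha i (notMem_empty i)
      rw [hij] at h5
      exact disjoint_left.1 (b3 i j hne) h5 (ha j (notMem_empty j))
    | insert j S hj ih =>
      intro a ha1 ha2
      have h5 : a = Function.update a j x := by
        rw [← ha1 j (mem_insert_self j S), Function.update_eq_self]
      rw [h5]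
      refine hone a j fun y hy => ih _ (fun i hi => ?_) (fun i hi => ?_)
      · have hij : i ≠ j := fun h => hj (h ▸ hi)
        rw [Function.update_of_ne hij]
        exact ha1 i (mem_insert_of_mem hi)
      · by_cases hij : i = j
        · subst hij
          rw [Function.update_self]
          exact hy
        · rw [Function.update_of_ne hij]
          exact ha2 i fun h => (mem_insert.1 h).elim hij hi
  have h7 := key univ (fun _ => x) (fun _ _ => rfl) (fun j hj => absurd (mem_univ j) hj)
  exact hd x hxs h7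

end Pool.Agent.TH700.PT
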